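import Pool.Agent.N520.T.Final
import Pool.Agent.Y321.PJ.Main

/-!
# Quasi-invariant measures and periodic points: the abstract part
-/

set_option autoImplicit false
set_option linter.unusedSectionVars false

open Filter Topology Set Metric MeasureTheory
open scoped ENNReal Manifold ContDiff

namespace Pool.Agent.U523.AJ

open Pool.Agent.H789R2.AN Pool.Agent.Y330.G Pool.Agent.H721R2 Pool.Agent.Y321.PJ
  Pool.Agent.N520.T

/-- The Jacobian of `f` for `m` is at least `exp w`. -/
def Dom {X : Type*} [MeasurableSpace X] (f : X → X) (m : Measure X) (w : X → ℝ) : Prop :=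
  ∀ A : Set X, MeasurableSet A → ∫⁻ x in A, ENNReal.ofReal (Real.exp (w x)) ∂m ≤ m (f '' A)

/-- The Jacobian of `f` for `m` is `exp w`. -/
def Jac {X : Type*} [MeasurableSpace X] (f : X → X) (m : Measure X) (w : X → ℝ) : Prop :=
  ∀ A : Set X, MeasurableSet A → m (f '' A) = ∫⁻ x in A, ENNReal.ofReal (Real.exp (w x)) ∂m

theorem Jac.dom {X : Type*} [MeasurableSpace X] {f : X → X} {m : Measure X} {w : X → ℝ}
    (h : Jac f m w) : Dom f m w := fun A hA => (h A hA).symm.le

section meas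

variable {X : Type*} [TopologicalSpace X] [MeasurableSpace X] [BorelSpace X]

theorem meas_dens {w : X → ℝ} (hw : Continuous w) :
    Measurable fun x => ENNReal.ofReal (Real.exp (w x)) :=
  ENNReal.measurable_ofReal.comp (Real.continuous_exp.comp hw).measurable

theorem cont_bsum {f : X → X} (hf : Continuous f) {w : X → ℝ} (hw : Continuous w) (n : ℕ) :
    Continuous fun x => birkhoffSum f w n x := by
  unfold birkhoffSum
  exact continuous_finsetSum _ fun i _ => hw.comp (hf.iterate i)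

theorem image_eq_pre (f : X ≃ₜ X) (A : Set X) : f '' A = f.symm ⁻¹' A :=
  f.toEquiv.image_eq_preimage_symm A

theorem meas_image (f : X ≃ₜ X) {A : Set X} (hA : MeasurableSet A) : MeasurableSet (f '' A) := by
  rw [image_eq_pre]
  exact f.symm.continuous.measurable hA

theorem Dom.iter {f : X ≃ₜ X} {m : Measure X} {w : X → ℝ} (hw : Continuous w) (h : Dom f m w)
    (n : ℕ) : Dom (f^[n]) m (fun x => birkhoffSum f w n x) := by
  induction n with
  | zero =>
    intro A hA
    simp
  | succ n ih =>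
    intro A hA
    have hle : m.withDensity (fun x => ENNReal.ofReal (Real.exp (w x))) ≤ m.map f.symm := by
      rw [Measure.le_iff]
      intro s hs
      rw [withDensity_apply _ hs, Measure.map_apply f.symm.continuous.measurable hs,
        ← image_eq_pre]
      exact h s hs
    have hG : Measurable fun x => ENNReal.ofReal (Real.exp (birkhoffSum f w n x)) :=
      meas_dens (cont_bsum f.continuous hw n)
    have hGf : Measurable fun x => ENNReal.ofReal (Real.exp (birkhoffSum f w n (f x))) :=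
      hG.comp f.continuous.measurable
    have h1 : ∫⁻ x in A, ENNReal.ofReal (Real.exp (birkhoffSum f w (n + 1) x)) ∂m =
        ∫⁻ x in A, ENNReal.ofReal (Real.exp (birkhoffSum f w n (f x)))
          ∂(m.withDensity (fun x => ENNReal.ofReal (Real.exp (w x)))) := by
      rw [setLIntegral_withDensity_eq_setLIntegral_mul _ (meas_dens hw) hGf hA]
      refine lintegral_congr fun x => ?_
      show _ = ENNReal.ofReal (Real.exp (w x)) *
        ENNReal.ofReal (Real.exp (birkhoffSum f w n (f x)))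
      rw [birkhoffSum_succ', Real.exp_add, ENNReal.ofReal_mul (Real.exp_pos _).le]
    have h2 : ∫⁻ x in A, ENNReal.ofReal (Real.exp (birkhoffSum f w n (f x))) ∂(m.map f.symm) =
        ∫⁻ x in f '' A, ENNReal.ofReal (Real.exp (birkhoffSum f w n x)) ∂m := by
      rw [setLIntegral_map hA hGf f.symm.continuous.measurable, image_eq_pre]
      refine lintegral_congr fun x => ?_
      show ENNReal.ofReal (Real.exp (birkhoffSum f w n (f (f.symm x)))) = _
      rw [f.apply_symm_apply]
    rw [h1]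
    calc ∫⁻ x in A, ENNReal.ofReal (Real.exp (birkhoffSum f w n (f x)))
          ∂(m.withDensity (fun x => ENNReal.ofReal (Real.exp (w x))))
        ≤ ∫⁻ x in A, ENNReal.ofReal (Real.exp (birkhoffSum f w n (f x))) ∂(m.map f.symm) :=
          lintegral_mono' (Measure.restrict_mono le_rfl hle) le_rfl
      _ = ∫⁻ x in f '' A, ENNReal.ofReal (Real.exp (birkhoffSum f w n x)) ∂m := h2
      _ ≤ m (f^[n] '' (f '' A)) := ih _ (meas_image f hA)
      _ = m (f^[n + 1] '' A) := by
          rw [← image_comp]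
          rfl

theorem Jac.symm {f : X ≃ₜ X} {m : Measure X} {w : X → ℝ} (hw : Continuous w) (h : Jac f m w) :
    Jac f.symm m (fun x => - w (f.symm x)) := by
  intro A hA
  have hm : m = (m.withDensity (fun x => ENNReal.ofReal (Real.exp (w x)))).map f := by
    ext s hs
    rw [Measure.map_apply f.continuous.measurable hs,
      withDensity_apply _ (f.continuous.measurable hs), ← h _ (f.continuous.measurable hs),
      image_preimage_eq _ f.surjective]
  have hG : Measurable fun x => ENNReal.ofReal (Real.exp (- w (f.symm x))) :=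
    meas_dens (hw.comp f.symm.continuous).neg
  have h1 : ∫⁻ x in A, ENNReal.ofReal (Real.exp (- w (f.symm x))) ∂m =
      ∫⁻ x in f ⁻¹' A, ENNReal.ofReal (Real.exp (- w (f.symm (f x))))
        ∂(m.withDensity (fun x => ENNReal.ofReal (Real.exp (w x)))) := by
    conv_lhs => rw [hm]
    rw [setLIntegral_map hA hG f.continuous.measurable]
  have hGf : Measurable fun x => ENNReal.ofReal (Real.exp (- w (f.symm (f x)))) :=
    hG.comp f.continuous.measurable
  rw [h1, setLIntegral_withDensity_eq_setLIntegral_mul _ (meas_dens hw) hGf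
    (f.continuous.measurable hA)]
  have h2 : ∀ x, ((fun x => ENNReal.ofReal (Real.exp (w x))) *
      (fun x => ENNReal.ofReal (Real.exp (- w (f.symm (f x)))))) x = 1 := by
    intro x
    show ENNReal.ofReal (Real.exp (w x)) * ENNReal.ofReal (Real.exp (- w (f.symm (f x)))) = 1
    rw [f.symm_apply_apply, ← ENNReal.ofReal_mul (Real.exp_pos _).le, ← Real.exp_add]
    simp
  have h3 : f.symm '' A = f ⁻¹' A := by
    have := f.symm.toEquiv.image_eq_preimage_symm A
    exact this
  rw [h3]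
  calc m (f ⁻¹' A) = ∫⁻ x in f ⁻¹' A, 1 ∂m := by simp
    _ = _ := (lintegral_congr fun x => (h2 x)).symm

end meas

section pot

variable {X : Type*} [MetricSpace X]

theorem pot_inv [CompactSpace X] {f : X ≃ₜ X} {w : X → ℝ} (h : Pot f w) :
    Pot f.symm (fun x => - w (f.symm x)) := by
  obtain ⟨hc, e, he, V, hB⟩ := h
  obtain ⟨B, hBd⟩ : ∃ B, ∀ x, |w x| ≤ B := by
    obtain ⟨B, hB⟩ := (isCompact_univ (X := X)).exists_bound_of_continuousOn hc.continuousOn
    exact ⟨B, fun x => hB x trivial⟩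
  refine ⟨(hc.comp f.symm.continuous).neg, e, he, V + 4 * B, fun n x y hxy => ?_⟩
  have key : ∀ z, birkhoffSum f.symm (fun x => - w (f.symm x)) n z =
      - (birkhoffSum f.symm w n z + w (f.symm^[n] z) - w z) := by
    intro z
    have h1 : birkhoffSum f.symm (fun x => - w (f.symm x)) n z =
        - birkhoffSum f.symm w n (f.symm z) := by
      unfold birkhoffSum
      rw [← Finset.sum_neg_distrib]
      refine Finset.sum_congr rfl fun i _ => ?_
      show - w (f.symm (f.symm^[i] z)) = - w (f.symm^[i] (f.symm z))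
      rw [← Function.iterate_succ_apply' f.symm i z, Function.iterate_succ_apply]
    have h2 := birkhoffSum_succ f.symm w n z
    have h3 := birkhoffSum_succ' f.symm w n z
    rw [h1]
    linarith
  rw [key, key]
  have h1 := abs_le.mp (hB.symm n x y hxy)
  have h2 := abs_le.mp (hBd (f.symm^[n] x))
  have h3 := abs_le.mp (hBd (f.symm^[n] y))
  have h4 := abs_le.mp (hBd x)
  have h5 := abs_le.mp (hBd y)
  rw [abs_le]
  constructor <;> linarith

end pot

section abs

variable {X E : Type*} [MetricSpace X] [NormedAddCommGroup E] [NormedSpace ℝ E]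

/-- A proper minimal attractor contains a contracting periodic orbit. -/
theorem exists_neg' [CompactSpace X] [ConnectedSpace X] [MeasurableSpace X] [BorelSpace X]
    (S : HypSys X E) {c : ℝ} (h : LP S.g c) {A : Set X} (hA : MinAtt S.g A) (hne : A ≠ univ)
    {φ : X → ℝ} {e V B : ℝ} (he : 0 < e) (hBow : Bow S.g φ e V) (hB : ∀ x, |φ x| ≤ B)
    (μ : Measure X) [IsFiniteMeasure μ] [μ.IsOpenPosMeasure]
    (hμ : ∀ C : ℝ, ∃ κ : ℝ≥0∞, κ ≠ 0 ∧ ∀ W, IsOpen W → ∀ n : ℕ,
      (∀ y ∈ W, -C ≤ birkhoffSum S.g φ n y) → κ * μ W ≤ μ (S.g^[n] '' W)) :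
    ∃ p ∈ A, ∃ q : ℕ, 1 ≤ q ∧ S.g^[q] p = p ∧ birkhoffSum S.g φ q p < 0 := by
  by_contra hcon
  push Not at hcon
  have hB0 : 0 ≤ B := by
    obtain ⟨x⟩ := (inferInstance : Nonempty X)
    exact (abs_nonneg _).trans (hB x)
  have hzero : Bow S.g (fun _ => (0 : ℝ)) e 0 := fun n x y _ => by simp [birkhoffSum]
  obtain ⟨V₂, hV₂⟩ := per_bound S h hA (φ := fun _ => (0 : ℝ)) (ψ := φ) (B := 0) he hzero hBow
    (fun x => by simp) hB (fun p hp T hT hpT => by
      have := hcon p hp T hT hpT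
      simpa [birkhoffSum] using this)
  obtain ⟨j, hj⟩ := pw (c := c) he
  obtain ⟨κ, hκ, h1⟩ := hμ (V₂ + V + 2 * j * B)
  apply hne
  apply att_univ_of_vol h hA.1 μ κ hκ
  intro W hW hWA n
  apply h1 W hW n
  intro y hy
  obtain ⟨a, ha, hya⟩ := hWA y hy
  have h2 := hV₂ a ha n
  have h3 : birkhoffSum S.g (fun _ => (0 : ℝ)) n a = 0 := by simp [birkhoffSum]
  rw [h3] at h2
  have hV0 : 0 ≤ V := (abs_nonneg _).trans (hBow 0 a a (by simp))
  have h4 : |birkhoffSum S.g φ n y - birkhoffSum S.g φ n a| ≤ V + 2 * j * B := by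
    rcases Nat.lt_or_ge n j with hn | hn
    · have h5 := bsum_bound S.g hB n y
      have h6 := bsum_bound S.g hB n a
      have h7 : (n : ℝ) ≤ j := by exact_mod_cast hn.le
      have h8 : (n : ℝ) * B ≤ j * B := mul_le_mul_of_nonneg_right h7 hB0
      have h9 := abs_sub (birkhoffSum S.g φ n y) (birkhoffSum S.g φ n a)
      linarith
    · obtain ⟨m, rfl⟩ : ∃ m, n = j + m := ⟨n - j, by omega⟩
      have h5 := bsum_bound S.g hB j y
      have h6 := bsum_bound S.g hB j a
      have h7 := hBow m (S.g^[j] y) (S.g^[j] a) (by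
        intro k hk
        rw [← Function.iterate_add_apply, ← Function.iterate_add_apply]
        have h8 := h.cS _ _ hya (k + j)
        exact h8.trans ((pw_anti h.c_pos (show j ≤ k + j by omega)).trans hj))
      rw [birkhoffSum_add, birkhoffSum_add]
      rw [abs_le] at h5 h6 h7 ⊢
      constructor <;> linarith
  have h5 := (abs_le.mp h4).1
  linarith

/-- Abstract form of the main theorem. -/
theorem abs_main' [CompactSpace X] [ConnectedSpace X] (S : HypSys X E) {c : ℝ} (h : LP S.g c)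
    {φ ψ : X → ℝ}
    (hneg : ∀ A, MinAtt S.g A → ∃ p ∈ A, ∃ q : ℕ, 1 ≤ q ∧ S.g^[q] p = p ∧
      birkhoffSum S.g φ q p < 0)
    (hneg' : ∀ R, MinAtt S.g.symm R → ∃ p ∈ R, ∃ q : ℕ, 1 ≤ q ∧ S.g.symm^[q] p = p ∧
      birkhoffSum S.g.symm ψ q p < 0) :
    ∃ (T : ℕ) (P Q : Set X), 1 ≤ T ∧ P.Finite ∧ Q.Finite ∧
      (∀ p ∈ P, S.g^[T] p = p ∧ birkhoffSum S.g φ T p < 0) ∧
      (∀ q ∈ Q, S.g.symm^[T] q = q ∧ birkhoffSum S.g.symm ψ T q < 0) ∧
      ∀ V, IsOpen V → V.Nonempty → ∃ x ∈ V, ∃ p ∈ P, ∃ q ∈ Q, WS S.g p x ∧ WS S.g.symm q x := by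
  have hchA : ∀ A : Set X, ∃ (p : X) (n : ℕ), 1 ≤ n ∧ (MinAtt S.g A → p ∈ A ∧ S.g^[n] p = p ∧
      birk S.g φ n p < 0) := by
    intro A
    by_cases hA : MinAtt S.g A
    · obtain ⟨p, hp, n, hn, h1, h2⟩ := hneg A hA
      exact ⟨p, n, hn, fun _ => ⟨hp, h1, h2⟩⟩
    · exact ⟨Classical.arbitrary X, 1, le_rfl, fun h => absurd h hA⟩
  have hchR : ∀ R : Set X, ∃ (p : X) (n : ℕ), 1 ≤ n ∧ (MinAtt S.g.symm R → p ∈ R ∧
      S.g.symm^[n] p = p ∧ birk S.g.symm ψ n p < 0) := by
    intro R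
    by_cases hR : MinAtt S.g.symm R
    · obtain ⟨p, hp, n, hn, h1, h2⟩ := hneg' R hR
      exact ⟨p, n, hn, fun _ => ⟨hp, h1, h2⟩⟩
    · exact ⟨Classical.arbitrary X, 1, le_rfl, fun h => absurd h hR⟩
  choose p n hn hp using hchA
  choose r m hm hr using hchR
  have hFA := finite_minAtt h
  have hFR := finite_minAtt h.symm
  set T := (∏ A ∈ hFA.toFinset, n A) * ∏ R ∈ hFR.toFinset, m R with hT
  have hT1 : 1 ≤ T := Nat.mul_pos (Finset.prod_pos fun A _ => hn A)
    (Finset.prod_pos fun R _ => hm R)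
  have hnT : ∀ A, MinAtt S.g A → n A ∣ T := fun A hA =>
    Dvd.dvd.mul_right (Finset.dvd_prod_of_mem n (hFA.mem_toFinset.mpr hA)) _
  have hmT : ∀ R, MinAtt S.g.symm R → m R ∣ T := fun R hR =>
    Dvd.dvd.mul_left (Finset.dvd_prod_of_mem m (hFR.mem_toFinset.mpr hR)) _
  refine ⟨T, ⋃ A ∈ {A : Set X | MinAtt S.g A}, range fun k : ℕ => S.g.symm^[k] (p A),
    ⋃ R ∈ {R : Set X | MinAtt S.g.symm R}, range fun k : ℕ => S.g^[k] (r R), hT1, ?_, ?_, ?_, ?_,
    ?_⟩
  · exact hFA.biUnion fun A hA => finite_back (hn A) (hp A hA).2.1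
  · exact hFR.biUnion fun R hR => finite_back (g := S.g.symm) (hm R) (hr R hR).2.1
  · intro y hy
    obtain ⟨A, hA, k, rfl⟩ := mem_iUnion₂.mp hy
    have h1 := (hp A hA).2.1
    have h2 := (hp A hA).2.2
    refine ⟨fixed_of_dvd (per_back h1 k) (hnT A hA),
      birk_neg_of_dvd hT1 (per_back h1 k) (hnT A hA) ?_⟩
    show birk S.g φ (n A) (S.g.symm^[k] (p A)) < 0
    rw [birk_back h1]; exact h2
  · intro y hy
    obtain ⟨R, hR, k, rfl⟩ := mem_iUnion₂.mp hy
    have h1 := (hr R hR).2.1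
    have h2 := (hr R hR).2.2
    have h3 : S.g.symm^[m R] (S.g^[k] (r R)) = S.g^[k] (r R) := per_back (g := S.g.symm) h1 k
    refine ⟨fixed_of_dvd h3 (hmT R hR), birk_neg_of_dvd hT1 h3 (hmT R hR) ?_⟩
    have := birk_back (g := S.g.symm) (φ := ψ) h1 k
    have e : S.g.symm.symm^[k] (r R) = S.g^[k] (r R) := rfl
    rw [e] at this
    rw [this]; exact h2
  · intro V hV hVn
    obtain ⟨A, R, hA, hR, hne⟩ := exists_connection h hV hVn
    obtain ⟨j, k, x, hxV, hx1, hx2⟩ := exists_heteroclinic h hA hR hV hne (hp A hA).1 (hr R hR).1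
    exact ⟨x, hxV, _, mem_biUnion (by exact hA) ⟨k, rfl⟩, _, mem_biUnion (by exact hR) ⟨j, rfl⟩,
      hx1, hx2⟩

/-- Every minimal repeller contains a periodic point. -/
theorem exists_per [CompactSpace X] (S : HypSys X E) {c : ℝ} (h : LP S.g c) {A : Set X}
    (hA : MinAtt S.g A) : ∃ p ∈ A, ∃ q : ℕ, 1 ≤ q ∧ S.g^[q] p = p := by
  obtain ⟨K, hcl⟩ := closing S h hA
  obtain ⟨a, ha⟩ := hA.1.nonempty
  obtain ⟨m, -, p, hp, hm, hpm, -⟩ := hcl a ha 0
  exact ⟨p, hp, 0 + m, hm, hpm⟩

end abs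

end Pool.Agent.U523.AJ
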