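import Pool.Agent.U523.AJ.Inv

/-!
# The final statements
-/

set_option autoImplicit false
set_option linter.unusedSectionVars false

open Filter Topology Set Metric MeasureTheory
open scoped ENNReal Manifold ContDiff

namespace Pool.Agent.U523.AJ

open Pool.Agent.H789R2.AN Pool.Agent.Y330.G Pool.Agent.H721R2 Pool.Agent.Y321.PJ
  Pool.Agent.N520.T

theorem per_inv_sum {X : Type*} [MetricSpace X] {f : X ≃ₜ X} {w : X → ℝ} {T : ℕ} {q : X}
    (hq : f.symm^[T] q = q) : f^[T] q = q ∧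
      birkhoffSum f.symm (fun x => - w (f.symm x)) T q = - birkhoffSum f w T q := by
  have h0 : f^[T] q = q := by
    have := iterR f T q
    rwa [hq] at this
  refine ⟨h0, ?_⟩
  have h1 : birkhoffSum f.symm (fun x => - w (f.symm x)) T q =
      - birkhoffSum f.symm w T (f.symm q) := by
    unfold birkhoffSum
    rw [← Finset.sum_neg_distrib]
    refine Finset.sum_congr rfl fun i _ => ?_
    show - w (f.symm (f.symm^[i] q)) = - w (f.symm^[i] (f.symm q))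
    rw [← Function.iterate_succ_apply' f.symm i q, Function.iterate_succ_apply]
  have h2 := birkhoffSum_succ f.symm w T q
  have h3 := birkhoffSum_succ' f.symm w T q
  rw [hq] at h2
  have h4 := bsum_per (g := f) w h0
  rw [h1]
  linarith

universe u

variable {E : Type*} [NormedAddCommGroup E] [NormedSpace ℝ E] [FiniteDimensional ℝ E]

/-- Domination of the Jacobian. -/
theorem one_sided' {M : Type u} [MetricSpace M] [CompactSpace M] [ConnectedSpace M]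
    [MeasurableSpace M] [BorelSpace M] [ChartedSpace E M] [IsManifold 𝓘(ℝ, E) ∞ M]
    (f : Diffeomorph 𝓘(ℝ, E) 𝓘(ℝ, E) M M 1)
    (Es Eu : ∀ x : M, Submodule ℝ (TangentSpace 𝓘(ℝ, E) x)) (hA : IsAnosov f Es Eu)
    (hnt : ¬ TopTransitive f) {w : M → ℝ} (hw : Pot f.toHomeomorph w)
    (m : Measure M) (hf : IsFiniteMeasure m) (hp : m.IsOpenPosMeasure)
    (hm : Dom f.toHomeomorph m w) :
    ∃ (T : ℕ) (P : Set M), 1 ≤ T ∧ P.Finite ∧
      (∀ p ∈ P, f^[T] p = p ∧ birkhoffSum f w T p < 0) ∧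
      Dense {x : M | ∃ p ∈ P, Tendsto (fun k : ℕ => f^[T * k] x) atTop (𝓝 p)} := by
  have hpot : Pot f.toHomeomorph.symm (fun _ : M => (-1 : ℝ)) :=
    ⟨continuous_const, 1, one_pos, 0, fun n x y _ => by simp [birkhoffSum]⟩
  obtain ⟨T, P, Q, hT, hP, -, h1, -, hd⟩ :=
    man_gen f Es Eu hA hnt hw hpot m hm (Or.inr rfl)
  exact ⟨T, P, hT, hP, h1, hd.mono fun x hx => hx.1⟩

/-- Equality of the Jacobian. -/
theorem two_sided {M : Type u} [MetricSpace M] [CompactSpace M] [ConnectedSpace M]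
    [MeasurableSpace M] [BorelSpace M] [ChartedSpace E M] [IsManifold 𝓘(ℝ, E) ∞ M]
    (f : Diffeomorph 𝓘(ℝ, E) 𝓘(ℝ, E) M M 1)
    (Es Eu : ∀ x : M, Submodule ℝ (TangentSpace 𝓘(ℝ, E) x)) (hA : IsAnosov f Es Eu)
    (hnt : ¬ TopTransitive f) {w : M → ℝ} (hw : Pot f.toHomeomorph w)
    (m : Measure M) (hf : IsFiniteMeasure m) (hp : m.IsOpenPosMeasure)
    (hm : Jac f.toHomeomorph m w) :
    ∃ (T : ℕ) (P Q : Set M), 1 ≤ T ∧ P.Finite ∧ Q.Finite ∧
      (∀ p ∈ P, f^[T] p = p ∧ birkhoffSum f w T p < 0) ∧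
      (∀ q ∈ Q, f^[T] q = q ∧ 0 < birkhoffSum f w T q) ∧
      Dense {x : M | (∃ p ∈ P, Tendsto (fun k : ℕ => f^[T * k] x) atTop (𝓝 p)) ∧
        ∃ q ∈ Q, Tendsto (fun k : ℕ => f.symm^[T * k] x) atTop (𝓝 q)} := by
  obtain ⟨T, P, Q, hT, hP, hQ, h1, h2, hd⟩ :=
    man_gen f Es Eu hA hnt hw (pot_inv hw) m hm.dom (Or.inl (hm.symm hw.1).dom)
  refine ⟨T, P, Q, hT, hP, hQ, h1, fun q hq => ?_, hd⟩
  obtain ⟨h3, h4⟩ := h2 q hq
  obtain ⟨h5, h6⟩ := per_inv_sum (f := f.toHomeomorph) (w := w) (T := T) (q := q) h3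
  refine ⟨h5, ?_⟩
  have h7 : birkhoffSum f.toHomeomorph.symm (fun x => - w (f.toHomeomorph.symm x)) T q < 0 := h4
  rw [h6] at h7
  have h8 : birkhoffSum f w T q = birkhoffSum f.toHomeomorph w T q := rfl
  rw [h8]
  linarith

/-- The criterion. -/
theorem criterion {M : Type u} [MetricSpace M] [CompactSpace M] [ConnectedSpace M]
    [MeasurableSpace M] [BorelSpace M] [ChartedSpace E M] [IsManifold 𝓘(ℝ, E) ∞ M]
    (f : Diffeomorph 𝓘(ℝ, E) 𝓘(ℝ, E) M M 1)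
    (Es Eu : ∀ x : M, Submodule ℝ (TangentSpace 𝓘(ℝ, E) x)) (hA : IsAnosov f Es Eu) :
    TopTransitive f ↔ ∃ (m : Measure M) (w : M → ℝ), IsFiniteMeasure m ∧ m.IsOpenPosMeasure ∧
      Pot f.toHomeomorph w ∧ Dom f.toHomeomorph m w ∧
      ∀ (k : ℕ) (p : M), 1 ≤ k → f^[k] p = p → 0 ≤ birkhoffSum f w k p := by
  constructor
  · intro ht
    obtain ⟨m, h1, h2, h3⟩ := exists_inv f Es Eu hA ht
    exact ⟨m, fun _ => 0, h1, h2, pot_zero _, h3.dom, fun k p _ _ => by simp [birkhoffSum]⟩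
  · rintro ⟨m, w, h1, h2, h3, h4, h5⟩
    by_contra hnt
    obtain ⟨T, P, hT, -, hP, hd⟩ := one_sided' f Es Eu hA hnt h3 m h1 h2 h4
    obtain ⟨x, p, hp, -⟩ := hd.nonempty
    exact absurd (h5 T p hT (hP p hp).1) (not_le.mpr (hP p hp).2)

end Pool.Agent.U523.AJ
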