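import Pool.Agent.U523.AJ.Man

/-!
# Invariant measures of full support from periodic points; the criterion for transitivity
-/

set_option autoImplicit false
set_option linter.unusedSectionVars false

open Filter Topology Set Metric MeasureTheory
open scoped ENNReal Manifold ContDiff

namespace Pool.Agent.U523.AJ

open Pool.Agent.H789R2.AN Pool.Agent.Y330.G Pool.Agent.H721R2 Pool.Agent.Y321.PJ
  Pool.Agent.N520.T

theorem cyc_sum (H : ℕ → ℝ≥0∞) (T : ℕ) (h : H T = H 0) (h0 : H 0 ≠ ⊤) :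
    ∑ j ∈ Finset.range T, H (j + 1) = ∑ j ∈ Finset.range T, H j := by
  have h1 := Finset.sum_range_succ' H T
  have h2 := Finset.sum_range_succ H T
  rw [h2, h] at h1
  exact ((ENNReal.add_left_inj h0).mp h1).symm

theorem orbit_sum {X : Type*} [TopologicalSpace X] [MeasurableSpace X] [BorelSpace X]
    (F : X ≃ₜ X) {p : X} {T : ℕ} (hp : F^[T] p = p) {A : Set X} (hA : MeasurableSet A) :
    ∑ j ∈ Finset.range T, Measure.dirac (F^[j] p) (F '' A) =
      ∑ j ∈ Finset.range T, Measure.dirac (F^[j] p) A := by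
  have hFA : MeasurableSet (F '' A) := meas_image F hA
  rw [← cyc_sum (fun j => Measure.dirac (F^[j] p) (F '' A)) T (by
    show Measure.dirac (F^[T] p) (F '' A) = Measure.dirac (F^[0] p) (F '' A)
    rw [hp]; rfl) (by
    show Measure.dirac (F^[0] p) (F '' A) ≠ ⊤
    exact measure_ne_top _ _)]
  refine Finset.sum_congr rfl fun j _ => ?_
  show Measure.dirac (F^[j + 1] p) (F '' A) = _
  rw [Measure.dirac_apply' _ hFA, Measure.dirac_apply' _ hA, Function.iterate_succ_apply']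
  by_cases h : F^[j] p ∈ A
  · rw [indicator_of_mem h, indicator_of_mem (mem_image_of_mem F h)]
    rfl
  · rw [indicator_of_notMem h, indicator_of_notMem]
    rintro ⟨z, hz, hzj⟩
    exact h (F.injective hzj ▸ hz)

theorem inv_of_per {X : Type*} [MetricSpace X] [CompactSpace X] [Nonempty X] [MeasurableSpace X]
    [BorelSpace X] (F : X ≃ₜ X) (hd : Dense {p : X | ∃ T : ℕ, 1 ≤ T ∧ F^[T] p = p}) :
    ∃ m : Measure X, IsFiniteMeasure m ∧ m.IsOpenPosMeasure ∧
      ∀ A, MeasurableSet A → m (F '' A) = m A := by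
  obtain ⟨t, hts, htc, htd⟩ := hd.exists_countable_dense_subset
  obtain ⟨u, hu⟩ := htc.exists_eq_range htd.nonempty
  have hper : ∀ i, ∃ T : ℕ, 1 ≤ T ∧ F^[T] (u i) = u i := fun i => hts (hu ▸ mem_range_self i)
  choose T hT1 hT using hper
  set c : ℕ → ℝ≥0∞ := fun i => (2 : ℝ≥0∞)⁻¹ ^ i / T i with hc
  set m : Measure X := Measure.sum fun i =>
    c i • ∑ j ∈ Finset.range (T i), Measure.dirac (F^[j] (u i)) with hm
  have happ : ∀ A, MeasurableSet A → m A =
      ∑' i, c i * ∑ j ∈ Finset.range (T i), Measure.dirac (F^[j] (u i)) A := by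
    intro A hA
    rw [hm, Measure.sum_apply _ hA]
    refine tsum_congr fun i => ?_
    rw [Measure.smul_apply, Measure.finsetSum_apply, smul_eq_mul]
  have hT0 : ∀ i, (T i : ℝ≥0∞) ≠ 0 := fun i => by
    have := hT1 i
    simp only [ne_eq, Nat.cast_eq_zero]
    omega
  have hTt : ∀ i, (T i : ℝ≥0∞) ≠ ⊤ := fun i => ENNReal.natCast_ne_top _
  refine ⟨m, ⟨?_⟩, ⟨fun U hU hne => ?_⟩, fun A hA => ?_⟩
  · rw [happ _ MeasurableSet.univ]
    have h1 : ∀ i, c i * ∑ j ∈ Finset.range (T i), Measure.dirac (F^[j] (u i)) univ =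
        (2 : ℝ≥0∞)⁻¹ ^ i := by
      intro i
      simp only [measure_univ, Finset.sum_const, Finset.card_range, nsmul_eq_mul, mul_one]
      rw [hc]
      exact ENNReal.div_mul_cancel (hT0 i) (hTt i)
    simp only [h1]
    rw [ENNReal.tsum_geometric, ENNReal.one_sub_inv_two, inv_inv]
    exact ENNReal.ofNat_lt_top
  · obtain ⟨x, hxU, hxt⟩ := htd.inter_open_nonempty U hU hne
    rw [hu] at hxt
    obtain ⟨i, rfl⟩ := hxt
    rw [happ _ hU.measurableSet]
    intro h0
    rw [ENNReal.tsum_eq_zero] at h0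
    have h1 := h0 i
    rw [mul_eq_zero] at h1
    rcases h1 with h1 | h1
    · rw [hc] at h1
      simp only [ENNReal.div_eq_zero_iff] at h1
      rcases h1 with h1 | h1
      · exact absurd h1 (by simp)
      · exact absurd h1 (hTt i)
    · have h2 := (Finset.sum_eq_zero_iff.mp h1) 0 (Finset.mem_range.mpr (hT1 i))
      rw [Measure.dirac_apply' _ hU.measurableSet] at h2
      simp [hxU] at h2
  · rw [happ _ (meas_image F hA), happ _ hA]
    exact tsum_congr fun i => by rw [orbit_sum F (hT i) hA]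

universe u

variable {E : Type*} [NormedAddCommGroup E] [NormedSpace ℝ E] [FiniteDimensional ℝ E]

theorem per_dense {M : Type u} [MetricSpace M] [CompactSpace M] [ConnectedSpace M]
    [ChartedSpace E M] [IsManifold 𝓘(ℝ, E) ∞ M]
    (f : Diffeomorph 𝓘(ℝ, E) 𝓘(ℝ, E) M M 1)
    (Es Eu : ∀ x : M, Submodule ℝ (TangentSpace 𝓘(ℝ, E) x)) (hA : IsAnosov f Es Eu)
    (ht : TopTransitive f) : Dense {p : M | ∃ T : ℕ, 1 ≤ T ∧ f^[T] p = p} := by
  obtain ⟨Y, iY, cY, mm, h, f', hf, hsys⟩ := exists_model2 f Es Eu hA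
  have hY : ConnectedSpace Y := h.surjective.connectedSpace h.continuous
  set F : M ≃ₜ M := f.toHomeomorph with hF
  have hf' : ∀ x, h (F x) = f' (h x) := hf
  obtain ⟨N, S, hN, hS⟩ := hsys 1 le_rfl
  rw [one_mul] at hS
  obtain ⟨c, hc⟩ := exists_LP S
  have ht' : TopTransitive f' := by
    intro U V hU hUn hV hVn
    obtain ⟨n, _, ⟨x, hx, rfl⟩, hy⟩ := ht (h ⁻¹' U) (h ⁻¹' V) (hU.preimage h.continuous)
      (hUn.preimage h.surjective) (hV.preimage h.continuous) (hVn.preimage h.surjective)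
    refine ⟨n, f'^[n] (h x), ⟨h x, hx, rfl⟩, ?_⟩
    have : h (F^[n] x) = f'^[n] (h x) := conj_iter hf' n x
    rw [← this]
    exact hy
  have htr : ∀ A, IsAtt S.g A → A = univ := by
    have h1 := hc
    rw [hS] at h1
    have h2 := (trans_iff hN h1).mp ht'
    rwa [← hS] at h2
  have hmin : MinAtt S.g univ := ⟨⟨isClosed_univ, univ_nonempty, fun x => by simp,
    fun x _ y _ => mem_univ y⟩, fun B hB _ => (htr B hB).ge⟩
  obtain ⟨K, hcl⟩ := closing S hc hmin
  rw [dense_iff_inter_open]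
  intro W hW hWn
  have hW' : IsOpen (h.symm ⁻¹' W) := hW.preimage h.symm.continuous
  obtain ⟨y, hy⟩ : (h.symm ⁻¹' W).Nonempty := hWn.preimage h.symm.surjective
  obtain ⟨ρ, hρ, hball⟩ := Metric.isOpen_iff.mp hW' y hy
  obtain ⟨k, hk⟩ := pw (c := c) (by positivity : 0 < ρ / 4)
  obtain ⟨m, -, p, -, hm, hpm, hd⟩ := hcl (S.g.symm^[k] y) (mem_univ _) (2 * k)
  have h1 := hd k (by omega)
  rw [iterR] at h1
  have h2 : 2 * k - k = k := by omega
  rw [h2] at h1
  have h3 : S.g^[k] p ∈ Metric.ball y ρ := by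
    rw [Metric.mem_ball, dist_comm]
    linarith
  refine ⟨h.symm (S.g^[k] p), hball h3, N * (2 * k + m), Nat.mul_pos hN hm, ?_⟩
  show F^[N * (2 * k + m)] (h.symm (S.g^[k] p)) = _
  rw [← back_iter hf', ← hS, ← Function.iterate_add_apply, Nat.add_comm,
    Function.iterate_add_apply, hpm]

theorem exists_inv {M : Type u} [MetricSpace M] [CompactSpace M] [ConnectedSpace M]
    [MeasurableSpace M] [BorelSpace M] [ChartedSpace E M] [IsManifold 𝓘(ℝ, E) ∞ M]
    (f : Diffeomorph 𝓘(ℝ, E) 𝓘(ℝ, E) M M 1)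
    (Es Eu : ∀ x : M, Submodule ℝ (TangentSpace 𝓘(ℝ, E) x)) (hA : IsAnosov f Es Eu)
    (ht : TopTransitive f) : ∃ m : Measure M, IsFiniteMeasure m ∧ m.IsOpenPosMeasure ∧
      Jac f.toHomeomorph m (fun _ => 0) := by
  obtain ⟨m, h1, h2, h3⟩ := inv_of_per f.toHomeomorph (per_dense f Es Eu hA ht)
  exact ⟨m, h1, h2, fun A hA => by rw [h3 A hA]; simp⟩

end Pool.Agent.U523.AJ
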