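import Pool.Agent.U523.AJ.Core

/-!
# Quasi-invariant measures and periodic points: Anosov diffeomorphisms
-/

set_option autoImplicit false
set_option linter.unusedSectionVars false

open Filter Topology Set Metric MeasureTheory
open scoped ENNReal Manifold ContDiff

namespace Pool.Agent.U523.AJ

open Pool.Agent.H789R2.AN Pool.Agent.Y330.G Pool.Agent.H721R2 Pool.Agent.Y321.PJ
  Pool.Agent.N520.T

section two

variable {X Y : Type*} [MetricSpace X] [CompactSpace X] [MetricSpace Y] [CompactSpace Y]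
  [MeasurableSpace X] [BorelSpace X] [MeasurableSpace Y] [BorelSpace Y]

theorem map_open (h : X ≃ₜ Y) (m : Measure X) (W : Set Y) : m.map h W = m (h ⁻¹' W) :=
  h.toMeasurableEquiv.map_apply W

theorem dom_transfer {h : X ≃ₜ Y} {f : X ≃ₜ X} {f' : Y ≃ₜ Y} (hf : ∀ x, h (f x) = f' (h x))
    (N : ℕ) {w : X → ℝ} (hw : Continuous w) {m : Measure X} (hm : Dom f m w) (C : ℝ) :
    ∃ κ : ℝ≥0∞, κ ≠ 0 ∧ ∀ W, IsOpen W → ∀ n : ℕ,
      (∀ y ∈ W, -C ≤ birkhoffSum (iterHomeo f' N) (fun y => birkhoffSum f w N (h.symm y)) n y) →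
      κ * (m.map h) W ≤ (m.map h) ((iterHomeo f' N)^[n] '' W) := by
  refine ⟨ENNReal.ofReal (Real.exp (-C)), by simpa using Real.exp_pos _, fun W hW n hy => ?_⟩
  have hWo : IsOpen (h ⁻¹' W) := hW.preimage h.continuous
  have e : h ⁻¹' ((iterHomeo f' N)^[n] '' W) = f^[N * n] '' (h ⁻¹' W) := by
    ext x
    constructor
    · rintro ⟨y, hyW, hyx⟩
      refine ⟨h.symm y, by simpa using hyW, ?_⟩
      rw [← back_iter hf, hyx, h.symm_apply_apply]
    · rintro ⟨z, hz, rfl⟩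
      refine ⟨h z, hz, ?_⟩
      apply h.symm.injective
      rw [back_iter hf, h.symm_apply_apply, h.symm_apply_apply]
  rw [map_open, map_open, e]
  refine le_trans ?_ (hm.iter hw (N * n) _ hWo.measurableSet)
  rw [← setLIntegral_const]
  refine setLIntegral_mono' hWo.measurableSet fun x hx => ?_
  apply ENNReal.ofReal_le_ofReal
  apply Real.exp_le_exp.mpr
  have := hy (h x) hx
  rwa [bsum_pow hf, h.symm_apply_apply] at this

theorem map_fin (h : X ≃ₜ Y) (m : Measure X) [IsFiniteMeasure m] : IsFiniteMeasure (m.map h) := by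
  infer_instance

theorem map_pos (h : X ≃ₜ Y) (m : Measure X) [m.IsOpenPosMeasure] :
    (m.map h).IsOpenPosMeasure := by
  refine ⟨fun U hU hne => ?_⟩
  rw [map_open]
  exact (hU.preimage h.continuous).measure_ne_zero m (hne.preimage h.surjective)

end two

universe u

variable {E : Type*} [NormedAddCommGroup E] [NormedSpace ℝ E] [FiniteDimensional ℝ E]

theorem tend_of_ws {Y : Type*} [MetricSpace Y] {g : Y ≃ₜ Y} {T : ℕ} (hT : 1 ≤ T) {p x : Y}
    (hp : g^[T] p = p) (h : WS g p x) : Tendsto (fun k : ℕ => g^[T * k] x) atTop (𝓝 p) := by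
  have h1 : Tendsto (fun k : ℕ => dist (g^[T * k] p) (g^[T * k] x)) atTop (𝓝 0) :=
    h.comp (tendsto_id.const_mul_atTop' (by omega : 0 < T))
  have h2 : ∀ k, g^[T * k] p = p := fun k => by
    rw [Function.iterate_mul]; exact Function.iterate_fixed hp k
  rw [tendsto_iff_dist_tendsto_zero]
  refine h1.congr fun k => ?_
  rw [h2, dist_comm]

/-- The general statement for an Anosov diffeomorphism which is not transitive. -/
theorem man_gen {M : Type u} [MetricSpace M] [CompactSpace M] [ConnectedSpace M]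
    [MeasurableSpace M] [BorelSpace M] [ChartedSpace E M] [IsManifold 𝓘(ℝ, E) ∞ M]
    (f : Diffeomorph 𝓘(ℝ, E) 𝓘(ℝ, E) M M 1)
    (Es Eu : ∀ x : M, Submodule ℝ (TangentSpace 𝓘(ℝ, E) x)) (hA : IsAnosov f Es Eu)
    (hnt : ¬ TopTransitive f) {w w' : M → ℝ} (hw : Pot f.toHomeomorph w)
    (hw' : Pot f.toHomeomorph.symm w') (m : Measure M) [IsFiniteMeasure m] [m.IsOpenPosMeasure]
    (hm : Dom f.toHomeomorph m w) (hm' : Dom f.toHomeomorph.symm m w' ∨ w' = fun _ => -1) :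
    ∃ (T : ℕ) (P Q : Set M), 1 ≤ T ∧ P.Finite ∧ Q.Finite ∧
      (∀ p ∈ P, f^[T] p = p ∧ birkhoffSum f w T p < 0) ∧
      (∀ q ∈ Q, f.symm^[T] q = q ∧ birkhoffSum f.symm w' T q < 0) ∧
      Dense {x : M | (∃ p ∈ P, Tendsto (fun k : ℕ => f^[T * k] x) atTop (𝓝 p)) ∧
        ∃ q ∈ Q, Tendsto (fun k : ℕ => f.symm^[T * k] x) atTop (𝓝 q)} := by
  obtain ⟨Y, iY, cY, mm, h, f', hf, hsys⟩ := exists_model2 f Es Eu hA
  have hY : ConnectedSpace Y := h.surjective.connectedSpace h.continuous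
  let _ : MeasurableSpace Y := borel Y
  have _ : BorelSpace Y := ⟨rfl⟩
  set F : M ≃ₜ M := f.toHomeomorph with hF
  have hf' : ∀ x, h (F x) = f' (h x) := hf
  have hfs : ∀ x, h (F.symm x) = f'.symm (h x) := fun x => by
    apply f'.injective
    rw [← hf', F.apply_symm_apply, f'.apply_symm_apply]
  obtain ⟨N, S, hN, hS⟩ := hsys 1 le_rfl
  rw [one_mul] at hS
  obtain ⟨c, hc⟩ := exists_LP S
  have hSs : S.g.symm = iterHomeo f'.symm N := by rw [hS, ith_symm]
  have hnt' : ¬ TopTransitive S.g := by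
    intro ht
    apply hnt
    intro U V hU hUn hV hVn
    obtain ⟨n, y, ⟨x, hx, rfl⟩, hy⟩ := ht (h.symm ⁻¹' U) (h.symm ⁻¹' V)
      (hU.preimage h.symm.continuous) (hUn.preimage h.symm.surjective)
      (hV.preimage h.symm.continuous) (hVn.preimage h.symm.surjective)
    refine ⟨N * n, F^[N * n] (h.symm x), ⟨h.symm x, hx, rfl⟩, ?_⟩
    rw [← back_iter hf', ← hS]
    exact hy
  have hAne : ∀ A, MinAtt S.g A → A ≠ univ := by
    rintro A hA rfl
    exact hnt' (trans_of_min_univ hc hA)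
  have hRne : ∀ R, MinAtt S.g.symm R → R ≠ univ := by
    rintro R hR rfl
    apply hnt'
    intro U V hU hUn hV hVn
    obtain ⟨n, y, ⟨v, hv, rfl⟩, hy⟩ := trans_of_min_univ hc.symm hR V U hV hVn hU hUn
    exact ⟨n, v, ⟨_, hy, iterR _ n v⟩, hv⟩
  have _ : IsFiniteMeasure (m.map h) := map_fin h m
  have _ : (m.map h).IsOpenPosMeasure := map_pos h m
  obtain ⟨hwc, e, he, V, hB⟩ := hw
  obtain ⟨hwc', e₁, he₁, V₁, hB₁⟩ := hw'
  obtain ⟨B, hBd⟩ : ∃ B, ∀ x, |w x| ≤ B := by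
    obtain ⟨B, hB⟩ := (isCompact_univ (X := M)).exists_bound_of_continuousOn hwc.continuousOn
    exact ⟨B, fun x => hB x trivial⟩
  obtain ⟨B', hBd'⟩ : ∃ B, ∀ x, |w' x| ≤ B := by
    obtain ⟨B, hB⟩ := (isCompact_univ (X := M)).exists_bound_of_continuousOn hwc'.continuousOn
    exact ⟨B, fun x => hB x trivial⟩
  obtain ⟨e', he', hBo⟩ := bow_transfer hf' hN he hB
  obtain ⟨e₁', he₁', hBo'⟩ := bow_transfer hfs hN he₁ hB₁
  rw [← hS] at hBo
  rw [← hSs] at hBo'
  have hneg : ∀ A, MinAtt S.g A → ∃ p ∈ A, ∃ q : ℕ, 1 ≤ q ∧ S.g^[q] p = p ∧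
      birkhoffSum S.g (fun y => birkhoffSum F w N (h.symm y)) q p < 0 := by
    intro A hAm
    refine exists_neg' S hc hAm (hAne A hAm) he' hBo (B := N * B)
      (fun y => bsum_bound F hBd N _) (m.map h) fun C => ?_
    have := dom_transfer hf' N hwc hm C
    rwa [← hS] at this
  have hneg' : ∀ R, MinAtt S.g.symm R → ∃ p ∈ R, ∃ q : ℕ, 1 ≤ q ∧ S.g.symm^[q] p = p ∧
      birkhoffSum S.g.symm (fun y => birkhoffSum F.symm w' N (h.symm y)) q p < 0 := by
    intro R hR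
    rcases hm' with hm' | hm'
    · refine exists_neg' S.symm (c := c) hc.symm hR (hRne R hR) he₁' hBo' (B := N * B')
        (fun y => bsum_bound F.symm hBd' N _) (m.map h) fun C => ?_
      have := dom_transfer hfs N hwc' hm' C
      rwa [← hSs] at this
    · obtain ⟨p, hp, q, hq, hpq⟩ := exists_per S.symm (c := c) hc.symm hR
      refine ⟨p, hp, q, hq, hpq, ?_⟩
      rw [hSs, bsum_pow hfs, hm']
      have : birkhoffSum F.symm (fun _ => (-1 : ℝ)) (N * q) (h.symm p) = - ((N * q : ℕ) : ℝ) := by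
        simp [birkhoffSum]
      rw [this]
      have h2 : 0 < N * q := Nat.mul_pos hN hq
      have h3 : (0 : ℝ) < ((N * q : ℕ) : ℝ) := by exact_mod_cast h2
      linarith
  obtain ⟨T, P, Q, hT, hPf, hQf, hP, hQ, hd⟩ := abs_main' S hc hneg hneg'
  have hFf : ∀ n : ℕ, (F : M → M)^[n] = f^[n] := fun n => rfl
  refine ⟨N * T, h.symm '' P, h.symm '' Q, Nat.mul_pos hN hT, hPf.image _, hQf.image _, ?_, ?_, ?_⟩
  · rintro _ ⟨p, hp, rfl⟩
    obtain ⟨h1, h2⟩ := hP p hp
    refine ⟨?_, ?_⟩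
    · show F^[N * T] (h.symm p) = h.symm p
      rw [← back_iter hf', ← hS, h1]
    · show birkhoffSum F w (N * T) (h.symm p) < 0
      rw [← bsum_pow hf', ← hS]
      exact h2
  · rintro _ ⟨q, hq, rfl⟩
    obtain ⟨h1, h2⟩ := hQ q hq
    refine ⟨?_, ?_⟩
    · show F.symm^[N * T] (h.symm q) = h.symm q
      rw [← back_iter hfs, ← hSs, h1]
    · show birkhoffSum F.symm w' (N * T) (h.symm q) < 0
      rw [← bsum_pow hfs, ← hSs]
      exact h2
  · rw [dense_iff_inter_open]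
    intro W hW hWn
    obtain ⟨x, hxW, p, hpP, q, hqQ, hpx, hqx⟩ := hd (h.symm ⁻¹' W)
      (hW.preimage h.symm.continuous) (hWn.preimage h.symm.surjective)
    refine ⟨h.symm x, hxW, ⟨h.symm p, ⟨p, hpP, rfl⟩, ?_⟩, ⟨h.symm q, ⟨q, hqQ, rfl⟩, ?_⟩⟩
    · have h1 := tend_of_ws hT (hP p hpP).1 hpx
      have h2 := (h.symm.continuous.tendsto p).comp h1
      refine h2.congr fun k => ?_
      show h.symm (S.g^[T * k] x) = F^[N * T * k] (h.symm x)
      rw [hS, back_iter hf', mul_assoc]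
    · have h1 := tend_of_ws (g := S.g.symm) hT (hQ q hqQ).1 hqx
      have h2 := (h.symm.continuous.tendsto q).comp h1
      refine h2.congr fun k => ?_
      show h.symm (S.g.symm^[T * k] x) = F.symm^[N * T * k] (h.symm x)
      rw [hSs, back_iter hfs, mul_assoc]

end Pool.Agent.U523.AJ
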